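import Pool.Agent.Q97.RL.R12
import Pool.Agent.Q286.XG.EQ2

/-!
# MP_553913_nt: the explicit formula of an elliptic curve with the primes up to `X` has essentially one positive solution

Let `E` be an elliptic curve over `ℚ` of conductor `N`, `t(p^k) = α_p^k + β_p^k` the traces of the powers of Frobenius, `a > 0`, `X = exp (2 a)`, and
`W` Weil's quadratic form of `E` on the functions on `[-a, a]`, written through `N`, the archimedean place and the numbers `t(p^k)` with `p^k ≤ X`;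
no zero of the L-function enters.  With `M f s = ∫ f(x) exp ((s - 1) x) dx` the explicit formula reads `W f = ∑ m(ρ) M f ρ conj (M f (2 - conj ρ))`, so under
the Riemann hypothesis for `E` the counting measure of the ordinates of the zeros is a positive solution `μ` of the equation `W f = ∫ |M f (1 + i t)|² dμ(t)`, for
all `a` and `f`; and by Weil's criterion the Riemann hypothesis for `E` holds if and only if positive solutions exist for all `a`.

Fix now `a` and consider the equation only for the smooth test functions in `(-a, a)`, or only for the trigonometric polynomials of degree at most `n` on `[-a, a]`.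
It has many positive solutions.  The theorem says, without any hypothesis, that all of them, and all measures which satisfy the equation up to factors
`x` and `y`, agree with the counting of the zeros (with multiplicity, and including zeros off the critical line) up to the height `4 π cos u √(X / N)`,
up to `exp (- b √X)`, for every `b < (4 π / √N) (sin u - u cos u)`, `0 < u < π / 2`.  So positivity and the numbers of points modulo the primes up to `X` determine all
zeros up to the height `T` if `N (T / 4 π) ^ 2` is smaller than `X` (for comparison: `N (T / 2 π) ^ 2` is the analytic conductor); in particular, under the Riemann hypothesis for `E`, the mass near `0` is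
nearly the analytic rank.  The same holds at all smaller scales `K a ≤ h ≤ √X`, where trigonometric polynomials of degree `K a h` suffice; and a degree `n` never
determines anything beyond the height `π (n + 2) / a`.
-/

set_option autoImplicit false

open UpperHalfPlane hiding I
open Complex MatrixGroups CongruenceSubgroup MeasureTheory Filter Topology Set

namespace Pool.Agent.Results.MP_553913_nt.RigidityOfTheExplicitFormula

/-- The coefficient `a_p` of `E : y² = x³ + a x + b` at a prime `p ∤ 2 (4a³ + 27b²)`: `p` minus the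
number of pairs `(x, y)` modulo `p` with `y² ≡ x³ + a x + b (mod p)`. -/
noncomputable def ap (a b : ℤ) (p : ℕ) : ℤ :=
  (p : ℤ) - (((Finset.range p ×ˢ Finset.range p).filter
    (fun xy : ℕ × ℕ => (p : ℤ) ∣ (xy.2 : ℤ) ^ 2 -
      ((xy.1 : ℤ) ^ 3 + a * (xy.1 : ℤ) + b))).card : ℤ)

/-- The `n`-th Fourier coefficient of `f`. -/
noncomputable def coef {N : ℕ} (f : CuspForm (Gamma0 N : Subgroup (GL (Fin 2) ℝ)) 2) (n : ℕ) : ℂ :=
  (qExpansion 1 f).coeff n

/-- `f ∈ S_2(Γ₀(N))` is the newform of the elliptic curve `E : y² = x³ + a x + b` of conductor `N` and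
root number `w`: the Fourier coefficients `c(n)` of `f` are real with `c(1) = 1`, they satisfy the
Hecke relations `c(mn) = c(m) c(n)` for coprime `m`, `n` and `c(p^(j+2)) = c(p) c(p^(j+1)) - p c(p^j)`
(without the last term if `p ∣ N`), `f(-1/(Nτ)) = -w N τ² f(τ)`, `c(p) = a_p(E)` for all primes
`p ∤ 2 (4a³ + 27b²)`, `|c(p)| ≤ 2 √p` for all `p ∤ N` (Hasse) and `c(p) = 0, 1, -1` for `p ∣ N`. -/
structure IsFormOf (a b : ℤ) (N : ℕ) (f : CuspForm (Gamma0 N : Subgroup (GL (Fin 2) ℝ)) 2) (w : ℝ) :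
    Prop where
  one : coef f 1 = 1
  real : ∀ n, (coef f n).im = 0
  mul : ∀ m n : ℕ, Nat.Coprime m n → coef f (m * n) = coef f m * coef f n
  pow : ∀ p j : ℕ, p.Prime → coef f (p ^ (j + 2)) = coef f p * coef f (p ^ (j + 1)) -
      (if p ∣ N then 0 else (p : ℂ) * coef f (p ^ j))
  sign : w = 1 ∨ w = -1
  fricke : ∀ τ τ' : ℍ, (τ' : ℂ) * ((N : ℂ) * (τ : ℂ)) = -1 →
    f τ' = -(w : ℂ) * (N : ℂ) * (τ : ℂ) ^ 2 * f τ
  points : ∀ p : ℕ, p.Prime → ¬ (p : ℤ) ∣ 2 * (4 * a ^ 3 + 27 * b ^ 2) → coef f p = (ap a b p : ℂ)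
  good : ∀ p : ℕ, p.Prime → ¬ p ∣ N → ‖coef f p‖ ≤ 2 * Real.sqrt p
  bad : ∀ p : ℕ, p.Prime → p ∣ N → coef f p = 0 ∨ coef f p = 1 ∨ coef f p = -1

/-- `Λ` is the completed L-function of `f`: it is entire and
`Λ(s) = N^(s/2) (2π)^(-s) Γ(s) ∑ c(n) n^(-s)` for `Re s > 2`. -/
def IsCompleted {N : ℕ} (f : CuspForm (Gamma0 N : Subgroup (GL (Fin 2) ℝ)) 2) (Λ : ℂ → ℂ) : Prop :=
  Differentiable ℂ Λ ∧ ∀ s : ℂ, 2 < s.re →
    Λ s = ((Real.sqrt N / (2 * Real.pi) : ℝ) : ℂ) ^ s * Complex.Gamma s *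
      ∑' n : ℕ, coef f (n + 1) * ((n + 1 : ℕ) : ℂ) ^ (-s)

/-- An elliptic curve `E : y² = x³ + a x + b` over `ℚ` of conductor `N`, with its newform `f`, root number `w` and
completed L-function `Λ`. -/
structure Curve where
  /-- the coefficient of `x` -/
  a : ℤ
  /-- the constant coefficient -/
  b : ℤ
  disc : 4 * a ^ 3 + 27 * b ^ 2 ≠ 0
  /-- the conductor -/
  N : ℕ
  pos : 0 < N
  /-- the newform -/
  f : CuspForm (Gamma0 N : Subgroup (GL (Fin 2) ℝ)) 2
  /-- the root number -/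
  w : ℝ
  form : IsFormOf a b N f w
  /-- the completed L-function -/
  Λ : ℂ → ℂ
  completed : IsCompleted f Λ

/-- The traces of Frobenius: for `n = p^k`, `t(p^k) = c(p^k) - p c(p^(k-2))` (without the last term if `p ∣ N` or `k = 1`; in
Lean `p / p^2 = 0` and `c(0) = 0`).  These are the numbers `α_p^k + β_p^k`, where `1 - c(p) T + p T^2 = (1 - α_p T)(1 - β_p T)`
(`1 - c(p) T` if `p ∣ N`). -/
noncomputable def trace (E : Curve) (n : ℕ) : ℂ :=
  coef E.f n - if n.minFac ∣ E.N then 0 else (n.minFac : ℂ) * coef E.f (n / n.minFac ^ 2)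

/-- The Riemann hypothesis for `E`: all zeros of `Λ(E, s)` have real part `1`. -/
def RiemannHypothesis (E : Curve) : Prop := ∀ s : ℂ, E.Λ s = 0 → s.re = 1

/-- The trigonometric polynomials of degree at most `n` on `[-a, a]`, extended by `0`. -/
def Trig (a : ℝ) (n : ℕ) (f : ℝ → ℂ) : Prop := ∃ c : ℤ → ℂ, ∀ x : ℝ,
  f x = if |x| ≤ a then ∑ k ∈ Finset.Icc (-(n : ℤ)) n, c k * cexp ((Real.pi * k * x / a : ℝ) * I) else 0

/-- The Mellin transform of `f` in the logarithmic variable, centred at `1`. -/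
noncomputable def M (f : ℝ → ℂ) (s : ℂ) : ℂ := ∫ x : ℝ, f x * cexp ((s - 1) * x)

/-- Weil's quadratic form of `E` for functions supported in `[-a, a]`: the conductor, the archimedean place (Gamma factor
`(2π)^(-s) Γ(s)`) and the prime powers `n ≤ exp (2 a)`. -/
noncomputable def W (E : Curve) (a : ℝ) (f : ℝ → ℂ) : ℝ :=
  1 / (2 * Real.pi) * (∫ x : ℝ, (Real.log E.N - 2 * Real.log (2 * Real.pi) + 2 * (digamma (1 + x * I)).re) *
    ‖M f (1 + x * I)‖ ^ 2) -
  2 * (∑ n ∈ Finset.Icc 1 ⌊Real.exp (2 * a)⌋₊, ArithmeticFunction.vonMangoldt n / n * trace E n *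
    ∫ x : ℝ, f (x + Real.log n) * (starRingEnd ℂ) (f x)).re

/-! ### Measures which solve the explicit formula -/

/-- The smooth functions with compact support in `(-a, a)`. -/
def Test (a : ℝ) (f : ℝ → ℂ) : Prop := ContDiff ℝ ((⊤ : ℕ∞) : WithTop ℕ∞) f ∧ tsupport f ⊆ Ioo (-a) a

/-- The measure `μ` on the real line satisfies the explicit formula for `f` up to the factors `x`, `y`; for `x = y = 1` exactly. -/
def Comp (E : Curve) (a x y : ℝ) (μ : Measure ℝ) (f : ℝ → ℂ) : Prop :=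
  Integrable (fun t : ℝ => ‖M f (1 + t * I)‖ ^ 2) μ ∧
    x * W E a f ≤ ∫ t : ℝ, ‖M f (1 + t * I)‖ ^ 2 ∂μ ∧ ∫ t : ℝ, ‖M f (1 + t * I)‖ ^ 2 ∂μ ≤ y * W E a f

/-- The number of the zeros of `Λ(E, s)` with ordinates in `(s, t)`, on the critical line or not, counted with multiplicity. -/
noncomputable def Zeros (E : Curve) (s t : ℝ) : ℝ :=
  ∑' ρ : {ρ : ℂ // E.Λ ρ = 0}, if s < (ρ : ℂ).im ∧ (ρ : ℂ).im < t then (analyticOrderNatAt E.Λ (ρ : ℂ) : ℝ) else 0

/-- `μ (s, t)` is finite, and equal to the number of the zeros up to the factors `x`, `y` and the error `e`. -/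
def Close (E : Curve) (x y e : ℝ) (μ : Measure ℝ) (s t : ℝ) : Prop := μ (Ioo s t) ≠ ⊤ ∧
  x * Zeros E s t - y * e ≤ (μ (Ioo s t)).toReal ∧ (μ (Ioo s t)).toReal ≤ y * (Zeros E s t + e)

/-- The conclusion: every measure on the real line which satisfies the explicit formula up to some factors `x ≥ 0`, `y > 0` for the functions in the class `C`
is close to the zeros, with the error `e`, on all intervals `(s, t)`, `|s|, |t| ≤ R`, whose end points have distance at least `d` from the ordinates of the zeros. -/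
def Rigid (E : Curve) (a : ℝ) (C : (ℝ → ℂ) → Prop) (R d e : ℝ) : Prop := ∀ (x y : ℝ) (μ : Measure ℝ), 0 ≤ x → 0 < y →
  (∀ f, C f → Comp E a x y μ f) → ∀ s t : ℝ, |s| ≤ R → |t| ≤ R → (∀ ρ : ℂ, E.Λ ρ = 0 → d ≤ |s - ρ.im| ∧ d ≤ |t - ρ.im|) → Close E x y e μ s t

/-! ### The proof -/

lemma formW (E : Curve) : Pool.Agent.W169.HF.IsForm E.N E.f E.w :=
  { one := E.form.one
    real := E.form.real
    mul := E.form.mul
    pow := E.form.pow
    sign := E.form.sign
    fricke := E.form.fricke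
    good := E.form.good
    bad := fun p hp hpN => by
      have h1 : (1 : ℝ) ≤ Real.sqrt p := by
        rw [Real.one_le_sqrt]
        exact_mod_cast hp.one_le
      have h2 : ‖coef E.f p‖ ≤ 1 := by
        rcases E.form.bad p hp hpN with h | h | h <;> simp [h]
      exact h2.trans h1 }

lemma outR (E : Curve) : Pool.Agent.Q97.RL.OutR (W E) E.Λ 1 1 2 E.N := by
  have : NeZero E.N := ⟨E.pos.ne'⟩
  obtain ⟨L, hm, hQ, h1, h2, k, hk, h3⟩ := Pool.Agent.Q286.XG.exE2 (formW E) E.completed.1 E.completed.2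
  have hW : ∀ (a : ℝ) (g : ℝ → ℂ), W E a g = Pool.Agent.Q286.TR.W L a g := fun a g => (h1 a g).symm
  have H := Pool.Agent.Q97.RL.outR (L := L) (Λ := E.Λ) (V := W E) E.completed.1 (c := 1) (r := 1) (by norm_num) hk h3 (fun a _ f _ => hW a f)
  rw [hm, hQ] at H
  exact_mod_cast H

/-- **The theorem.** -/
theorem result (E : Curve) :
    (∀ u b : ℝ, 0 < u → u < Real.pi / 2 → 0 < b → b < 4 * Real.pi / Real.sqrt E.N * (Real.sin u - u * Real.cos u) →
      ∃ k K : ℝ, 0 < k ∧ ∀ a h : ℝ, K ≤ a → K * a ≤ h → h ≤ Real.exp a →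
        Rigid E a (Test a) (4 * Real.pi / Real.sqrt E.N * Real.cos u * h) (Real.exp (-(k * h / Real.log h))) (Real.exp (-(b * h))) ∧
        ∀ n : ℕ, K * a * h ≤ n →
          Rigid E a (Trig a n) (4 * Real.pi / Real.sqrt E.N * Real.cos u * h) (Real.exp (-(k * h / Real.log h))) (Real.exp (-(b * h)))) ∧
    (∀ (a s t : ℝ) (n : ℕ), 0 < a → 0 ≤ s → Real.pi < a * (t - s) → n + 1 < a * t / Real.pi → ∀ (x y : ℝ) (μ : Measure ℝ),
      (∀ f, Trig a n f → Comp E a x y μ f) → ∀ l : ℝ, 0 ≤ l →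
        ∃ μ' : Measure ℝ, (∀ f, Trig a n f → Comp E a x y μ' f) ∧ μ' (Ioo s t) = μ (Ioo s t) + ENNReal.ofReal l) ∧
    (RiemannHypothesis E ↔ ∀ (a : ℝ) (n : ℕ), 0 < a → ∃ μ : Measure ℝ, ∀ f, Trig a n f → Comp E a 1 1 μ f) ∧
    (∀ n : ℝ → ℕ, Tendsto (fun a : ℝ => (n a : ℝ) / a) atTop atTop → (RiemannHypothesis E ↔
      ∀ A : ℝ, ∃ a : ℝ, A ≤ a ∧ ∃ (x y : ℝ) (μ : Measure ℝ), 0 ≤ x ∧ 0 < y ∧ ∀ f, Trig a (n a) f → Comp E a x y μ f)) ∧
    (RiemannHypothesis E ↔ ∀ A : ℝ, ∃ a : ℝ, A ≤ a ∧ ∃ (x y : ℝ) (μ : Measure ℝ), 0 ≤ x ∧ 0 < y ∧ ∀ f, Test a f → Comp E a x y μ f) := by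
  have H := outR E
  have hN : (0 : ℝ) < E.N := by exact_mod_cast E.pos
  have e1 : (E.N : ℝ) ^ (-(1 / (2 : ℝ))) = 1 / Real.sqrt E.N := by
    rw [Real.rpow_neg hN.le, Real.sqrt_eq_rpow]
    exact (one_div _).symm
  refine ⟨fun u b hu0 hu1 hb0 hb => ?_, H.node, H.rh, H.rhn, H.rht⟩
  obtain ⟨k, K, hk, h⟩ := H.win u b hu0 hu1 hb0 (by rw [e1]; convert hb using 2; ring)
  refine ⟨k, K, hk, fun a h' ha hah hh => ?_⟩
  have h2 := h a h' ha hah (by convert hh using 2; ring)
  have e2 : 4 * Real.pi * Real.cos u * (E.N : ℝ) ^ (-(1 / (2 : ℝ))) * h' = 4 * Real.pi / Real.sqrt E.N * Real.cos u * h' := by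
    rw [e1]; ring
  rw [e2] at h2
  exact h2

end Pool.Agent.Results.MP_553913_nt.RigidityOfTheExplicitFormula
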